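import Mathlib

set_option autoImplicit false

namespace Pool.Agent.Helper53.Mem

/-- An arena over the colour set `C`: a finite nonempty set `V` of nodes, the set `prot` of nodes of
Protagonist (the other nodes belong to Antagonist), and a finite set `E` of coloured edges
`(source, colour, target)` such that every node has an outgoing edge. -/
structure Arena (C : Type) where
  V : Type
  finV : Finite V
  nonemptyV : Nonempty V
  prot : Set V
  E : Set (V × C × V)
  finE : E.Finite
  total : ∀ v : V, ∃ e ∈ E, e.1 = v

variable {C : Type}

/-- Triples (source, colour, target). -/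
abbrev Arena.Edge (A : Arena C) : Type := A.V × C × A.V

/-- `A.IsPath u p`: the list of edges `p` is a finite path of `A` that starts at `u`. -/
def Arena.IsPath (A : Arena C) : A.V → List A.Edge → Prop
  | _, [] => True
  | u, e :: p => e ∈ A.E ∧ e.1 = u ∧ A.IsPath e.2.2 p

/-- The last node of the finite path with start node `u` and list of edges `p`. -/
def Arena.last (A : Arena C) : A.V → List A.Edge → A.V
  | u, [] => u
  | _, e :: p => A.last e.2.2 p

/-- A strategy of Protagonist: to every finite path (start node and list of edges, possibly empty)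
that ends in a node of Protagonist it assigns an outgoing edge of the last node. -/
structure Strategy (A : Arena C) where
  move : A.V → List A.Edge → A.Edge
  legal : ∀ u p, A.IsPath u p → A.last u p ∈ A.prot →
    move u p ∈ A.E ∧ (move u p).1 = A.last u p

/-- Infinite plays from `u`. -/
def Arena.IsPlay (A : Arena C) (u : A.V) (π : ℕ → A.Edge) : Prop :=
  (π 0).1 = u ∧ ∀ i, π i ∈ A.E ∧ (π (i + 1)).1 = (π i).2.2

/-- The play `π` from `u` is consistent with `S`. -/
def Strategy.Consistent {A : Arena C} (S : Strategy A) (u : A.V) (π : ℕ → A.Edge) : Prop :=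
  ∀ i, (π i).1 ∈ A.prot → π i = S.move u ((List.range i).map π)

/-- `S` is winning from `u` for the winning condition `W`. -/
def Strategy.WinsFrom {A : Arena C} (S : Strategy A) (W : Set (ℕ → C)) (u : A.V) : Prop :=
  ∀ π, A.IsPlay u π → S.Consistent u π → (fun i => (π i).2.1) ∈ W

/-- `S` is optimal for `W`: it wins from every node from which some strategy wins. -/
def Strategy.Optimal {A : Arena C} (S : Strategy A) (W : Set (ℕ → C)) : Prop :=
  ∀ u, (∃ S' : Strategy A, S'.WinsFrom W u) → S.WinsFrom W u

/-- A memory structure with the `k` states `Fin k` on the arena `A`. -/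
structure Memory (A : Arena C) (k : ℕ) where
  init : Fin k
  upd : Fin k → A.Edge → Fin k

/-- The memory structure is chromatic: its update depends only on the colour of the edge. -/
def Memory.IsChromatic {A : Arena C} {k : ℕ} (M : Memory A k) : Prop :=
  ∀ m, ∀ e ∈ A.E, ∀ e' ∈ A.E, e.2.1 = e'.2.1 → M.upd m e = M.upd m e'

/-- `S` is built on the memory structure `M`: its move after a finite path is a function of the last
node and of the memory state reached. -/
def Strategy.BuiltOn {A : Arena C} {k : ℕ} (S : Strategy A) (M : Memory A k) : Prop :=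
  ∃ σ : A.V → Fin k → A.Edge, ∀ u p, A.IsPath u p → A.last u p ∈ A.prot →
    S.move u p = σ (A.last u p) (p.foldl M.upd M.init)

/-- `GenMem(W)`: the least `k ≥ 1` such that every arena over `C` has an optimal strategy with `k`
states of general memory (`⊤` if there is no such `k`). -/
noncomputable def genMem (W : Set (ℕ → C)) : ℕ∞ :=
  sInf {n : ℕ∞ | ∃ k : ℕ, n = k ∧ 0 < k ∧
    ∀ A : Arena C, ∃ (S : Strategy A) (M : Memory A k), S.Optimal W ∧ S.BuiltOn M}

/-- `ChrMem(W)`: the same with chromatic memory. -/
noncomputable def chrMem (W : Set (ℕ → C)) : ℕ∞ :=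
  sInf {n : ℕ∞ | ∃ k : ℕ, n = k ∧ 0 < k ∧
    ∀ A : Arena C, ∃ (S : Strategy A) (M : Memory A k),
      M.IsChromatic ∧ S.Optimal W ∧ S.BuiltOn M}

end Pool.Agent.Helper53.Mem
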