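import Pool.Agent.Helper53.MemDefs
set_option autoImplicit false
namespace Pool.Agent.Helper53.Mem

section paths
variable {C : Type} (A : Arena C)

theorem last_append (u : A.V) (p : List A.Edge) (e : A.Edge) :
    A.last u (p ++ [e]) = e.2.2 := by
  induction p generalizing u with
  | nil => rfl
  | cons a p ih => simpa [Arena.last] using ih a.2.2

theorem isPath_append {u : A.V} {p : List A.Edge} {e : A.Edge} (hp : A.IsPath u p)
    (he : e ∈ A.E) (h : e.1 = A.last u p) : A.IsPath u (p ++ [e]) := by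
  induction p generalizing u with
  | nil => exact ⟨he, h, trivial⟩
  | cons a p ih => exact ⟨hp.1, hp.2.1, ih hp.2.2 h⟩

/-- history of a play -/
def hist (π : ℕ → A.Edge) (i : ℕ) : List A.Edge := (List.range i).map π

theorem hist_succ (π : ℕ → A.Edge) (i : ℕ) : hist A π (i + 1) = hist A π i ++ [π i] := by
  simp [hist, List.range_succ]

theorem play_path {u : A.V} {π : ℕ → A.Edge} (h : A.IsPlay u π) (i : ℕ) :
    A.IsPath u (hist A π i) ∧ A.last u (hist A π i) = (π i).1 := by
  induction i with
  | zero => exact ⟨trivial, h.1.symm⟩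
  | succ i ih =>
    rw [hist_succ]
    refine ⟨isPath_append A ih.1 (h.2 i).1 ih.2.symm, ?_⟩
    rw [last_append, (h.2 i).2]

/-- the play generated by a function on histories -/
def genHist (next : List A.Edge → A.Edge) : ℕ → List A.Edge
  | 0 => []
  | i + 1 => genHist next i ++ [next (genHist next i)]

theorem genHist_eq (next : List A.Edge → A.Edge) (i : ℕ) :
    hist A (fun j => next (genHist A next j)) i = genHist A next i := by
  induction i with
  | zero => rfl
  | succ i ih => rw [hist_succ, ih]; rfl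

theorem gen_path {u : A.V} {next : List A.Edge → A.Edge}
    (hn : ∀ p, A.IsPath u p → next p ∈ A.E ∧ (next p).1 = A.last u p) (i : ℕ) :
    A.IsPath u (genHist A next i) := by
  induction i with
  | zero => trivial
  | succ i ih => exact isPath_append A ih (hn _ ih).1 (hn _ ih).2

theorem gen_play {u : A.V} {next : List A.Edge → A.Edge}
    (hn : ∀ p, A.IsPath u p → next p ∈ A.E ∧ (next p).1 = A.last u p) :
    A.IsPlay u (fun j => next (genHist A next j)) := by
  refine ⟨(hn _ (gen_path A hn 0)).2, fun i => ⟨(hn _ (gen_path A hn i)).1, ?_⟩⟩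
  have h1 := (hn _ (gen_path A hn (i + 1))).2
  simp only
  rw [h1]
  show A.last u (genHist A next i ++ [next (genHist A next i)]) = _
  rw [last_append]

end paths

/-- states of the safety automaton: `none` is dead -/
abbrev Q : Type := Option (ℕ × Fin 2)

def step : Q → Fin 4 → Q
  | none, _ => none
  | some (n, a), 0 => some (n + 1, a)
  | some (0, _), 1 => none
  | some (n + 1, a), 1 => some (n, a)
  | some (0, a), 2 => some (0, 1 - a)
  | some (n + 1, a), 2 => some (n + 1, a)
  | some (0, 0), 3 => some (0, 0)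
  | some (0, 1), 3 => none
  | some (n + 1, a), 3 => some (n + 1, a)

def run (w : ℕ → Fin 4) : ℕ → Q
  | 0 => some (0, 0)
  | i + 1 => step (run w i) (w i)

/-- the winning condition: never dead -/
def W : Set (ℕ → Fin 4) := {w | ∀ i, run w i ≠ none}

def le : Q → Q → Prop
  | none, _ => True
  | some _, none => False
  | some (m, i), some (n, j) => m < n ∨ (m = n ∧ i = j)

theorem le_refl' (p : Q) : le p p := by
  rcases p with _ | ⟨n, a⟩
  · trivial
  · exact Or.inr ⟨rfl, rfl⟩

theorem le_trans' {p q r : Q} (h1 : le p q) (h2 : le q r) : le p r := by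
  rcases p with _ | ⟨n, a⟩
  · trivial
  rcases q with _ | ⟨m, b⟩
  · exact h1.elim
  rcases r with _ | ⟨l, c⟩
  · exact h2.elim
  simp only [le] at *
  rcases h1 with h1 | ⟨h1, h1'⟩ <;> rcases h2 with h2 | ⟨h2, h2'⟩
  · left; omega
  · left; omega
  · left; omega
  · right; exact ⟨by omega, h1'.trans h2'⟩

theorem step_none (c : Fin 4) : step none c = none := by
  fin_cases c <;> rfl

theorem step_mono {p q : Q} (h : le p q) (c : Fin 4) : le (step p c) (step q c) := by
  rcases p with _ | ⟨n, a⟩
  · rw [step_none]; trivial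
  rcases q with _ | ⟨m, b⟩
  · exact h.elim
  simp only [le] at h
  rcases h with h | ⟨rfl, rfl⟩
  · obtain ⟨m, rfl⟩ : ∃ k, m = k + 1 := ⟨m - 1, by omega⟩
    rcases n with _ | n
    · fin_cases c
      · simp [step, le]
      · simp [step, le]
      · simp [step, le]
      · fin_cases a <;> simp [step, le]
    · fin_cases c <;> simp [step, le] <;> omega
  · exact le_refl' _

/-- level change -/
def wt : Fin 4 → ℤ
  | 0 => 1
  | 1 => -1
  | 2 => 0
  | 3 => 0

theorem step_lev {n m : ℕ} {a b : Fin 2} {c : Fin 4} (h : step (some (n, a)) c = some (m, b)) :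
    (m : ℤ) = n + wt c := by
  fin_cases c
  · simp [step] at h; simp [wt]; omega
  · rcases n with _ | n
    · simp [step] at h
    · simp [step] at h; simp [wt]; omega
  · rcases n with _ | n
    · simp [step] at h; simp [wt]; omega
    · simp [step] at h; simp [wt]; omega
  · rcases n with _ | n
    · fin_cases a
      · simp [step] at h; simp [wt]; omega
      · simp [step] at h
    · simp [step] at h; simp [wt]; omega

theorem step_alive (n : ℕ) (a : Fin 2) (c : Fin 4) :
    ∃ m b, step (some (n + 1, a)) c = some (m, b) := by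
  fin_cases c <;> exact ⟨_, _, rfl⟩

theorem wt_ge (c : Fin 4) : -1 ≤ wt c := by fin_cases c <;> simp [wt]


section game
variable (A : Arena (Fin 4)) (R : Set A.V)

/-- `R`-player can force `none` within `n` steps -/
def Att : ℕ → A.V → Q → Prop
  | 0, _, q => q = none
  | n + 1, v, q => q = none ∨
      (v ∈ R ∧ ∃ e ∈ A.E, e.1 = v ∧ Att n e.2.2 (step q e.2.1)) ∨
      (v ∉ R ∧ ∀ e ∈ A.E, e.1 = v → Att n e.2.2 (step q e.2.1))

def Win (v : A.V) (q : Q) : Prop := ∃ n, Att A R n v q

theorem att_none (n : ℕ) (v : A.V) : Att A R n v none := by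
  cases n with
  | zero => rfl
  | succ n => exact Or.inl rfl

theorem att_succ {n : ℕ} {v : A.V} {q : Q} (h : Att A R n v q) : Att A R (n + 1) v q := by
  induction n generalizing v q with
  | zero => exact Or.inl h
  | succ n ih =>
    rcases h with h | ⟨h1, e, he, h2, h3⟩ | ⟨h1, h2⟩
    · exact Or.inl h
    · exact Or.inr (Or.inl ⟨h1, e, he, h2, ih h3⟩)
    · exact Or.inr (Or.inr ⟨h1, fun e he h3 => ih (h2 e he h3)⟩)

theorem att_mono {n m : ℕ} (hnm : n ≤ m) {v : A.V} {q : Q} (h : Att A R n v q) :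
    Att A R m v q := by
  induction hnm with
  | refl => exact h
  | step _ ih => exact att_succ A R ih

theorem att_anti {n : ℕ} {v : A.V} {q q' : Q} (hq : le q' q) (h : Att A R n v q) :
    Att A R n v q' := by
  induction n generalizing v q q' with
  | zero =>
    rw [show q = none from h] at hq
    rcases q' with _ | q'
    · rfl
    · exact hq.elim
  | succ n ih =>
    rcases h with h | ⟨h1, e, he, h2, h3⟩ | ⟨h1, h2⟩
    · rw [h] at hq
      rcases q' with _ | q'
      · exact Or.inl rfl
      · exact hq.elim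
    · exact Or.inr (Or.inl ⟨h1, e, he, h2, ih (step_mono hq _) h3⟩)
    · exact Or.inr (Or.inr ⟨h1, fun e he h3 => ih (step_mono hq _) (h2 e he h3)⟩)

theorem win_anti {v : A.V} {q q' : Q} (hq : le q' q) (h : Win A R v q) : Win A R v q' := by
  obtain ⟨n, h⟩ := h
  exact ⟨n, att_anti A R hq h⟩

theorem not_win_R {v : A.V} {q : Q} (hv : v ∈ R) (h : ¬ Win A R v q) {e : A.Edge} (he : e ∈ A.E)
    (hev : e.1 = v) : ¬ Win A R e.2.2 (step q e.2.1) := by
  rintro ⟨n, hn⟩
  exact h ⟨n + 1, Or.inr (Or.inl ⟨hv, e, he, hev, hn⟩)⟩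

theorem not_win_P {v : A.V} {q : Q} (hv : v ∉ R) (h : ¬ Win A R v q) :
    ∃ e ∈ A.E, e.1 = v ∧ ¬ Win A R e.2.2 (step q e.2.1) := by
  by_contra hcon
  push Not at hcon
  apply h
  classical
  choose! f hf using hcon
  have hfin := A.finE
  refine ⟨hfin.toFinset.sup f + 1, Or.inr (Or.inr ⟨hv, fun e he hev => ?_⟩)⟩
  exact att_mono A R (Finset.le_sup (f := f) (hfin.mem_toFinset.mpr he)) (hf e he hev)

theorem not_win_ne {v : A.V} {q : Q} (h : ¬ Win A R v q) : q ≠ none := by
  rintro rfl
  exact h ⟨0, rfl⟩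

end game

/-- existence of a play consistent with `S` in which the other player follows `ch` -/
theorem exists_play (A : Arena (Fin 4)) (S : Strategy A) (u : A.V) (ch : A.V → Q → A.Edge)
    (hch : ∀ v q, ch v q ∈ A.E ∧ (ch v q).1 = v) :
    ∃ π, A.IsPlay u π ∧ S.Consistent u π ∧
      ∀ i, (π i).1 ∉ A.prot → π i = ch (π i).1 (run (fun j => (π j).2.1) i) := by
  classical
  let runL : List A.Edge → Q := fun p => p.foldl (fun q e => step q e.2.1) (some (0, 0))
  let next : List A.Edge → A.Edge := fun p =>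
    if A.last u p ∈ A.prot then S.move u p else ch (A.last u p) (runL p)
  have hn : ∀ p, A.IsPath u p → next p ∈ A.E ∧ (next p).1 = A.last u p := by
    intro p hp
    by_cases h : A.last u p ∈ A.prot
    · simp only [next, if_pos h]; exact S.legal u p hp h
    · simp only [next, if_neg h]; exact hch _ _
  let π : ℕ → A.Edge := fun j => next (genHist A next j)
  have hplay : A.IsPlay u π := gen_play A hn
  have hlast : ∀ i, A.last u (genHist A next i) = (π i).1 := fun i =>
    (hn _ (gen_path A hn i)).2.symm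
  have hhist : ∀ i, (List.range i).map π = genHist A next i := fun i => genHist_eq A next i
  have hrun : ∀ i, runL (genHist A next i) = run (fun j => (π j).2.1) i := by
    intro i
    induction i with
    | zero => rfl
    | succ i ih =>
      show (genHist A next i ++ [next (genHist A next i)]).foldl _ _ = _
      rw [List.foldl_append]
      simp only [List.foldl_cons, List.foldl_nil]
      show step (runL (genHist A next i)) _ = _
      rw [ih]
      rfl
  refine ⟨π, hplay, ?_, ?_⟩
  · intro i hi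
    rw [hhist i]
    show next (genHist A next i) = _
    simp only [next]
    rw [hlast i, if_pos hi]
  · intro i hi
    show next (genHist A next i) = _
    simp only [next]
    rw [hlast i, if_neg hi, hrun i]

/-- If Antagonist (the player `protᶜ`) can force death then no strategy wins `W`. -/
theorem att_beats (A : Arena (Fin 4)) (S : Strategy A) (u : A.V)
    (h : Win A A.protᶜ u (some (0, 0))) : ¬ S.WinsFrom W u := by
  classical
  intro hS
  let ch : A.V → Q → A.Edge := fun v q =>
    if h : ∃ e ∈ A.E, e.1 = v ∧ Win A A.protᶜ v q ∧ ∀ n, Att A A.protᶜ (n + 1) v q → q ≠ none →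
      Att A A.protᶜ n e.2.2 (step q e.2.1)
    then h.choose else (A.total v).choose
  have hch : ∀ v q, ch v q ∈ A.E ∧ (ch v q).1 = v := by
    intro v q
    by_cases h : ∃ e ∈ A.E, e.1 = v ∧ Win A A.protᶜ v q ∧
        ∀ n, Att A A.protᶜ (n + 1) v q → q ≠ none → Att A A.protᶜ n e.2.2 (step q e.2.1)
    · simp only [ch, dif_pos h]; exact ⟨h.choose_spec.1, h.choose_spec.2.1⟩
    · simp only [ch, dif_neg h]; exact (A.total v).choose_spec
  obtain ⟨π, h1, h2, h3⟩ := exists_play A S u ch hch
  have hW := hS π h1 h2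
  have key : ∀ n i, Att A A.protᶜ n (π i).1 (run (fun j => (π j).2.1) i) → False := by
    intro n
    induction n with
    | zero => intro i hi; exact hW i hi
    | succ n ih =>
      intro i hi
      have hne := hW i
      apply ih (i + 1)
      rw [(h1.2 i).2]
      show Att A A.protᶜ n _ (step (run (fun j => (π j).2.1) i) (π i).2.1)
      by_cases hp : (π i).1 ∈ A.prot
      · rcases hi with hi | ⟨h4, _⟩ | ⟨_, h5⟩
        · exact absurd hi hne
        · exact absurd hp h4
        · exact h5 _ (h1.2 i).1 rfl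
      · have hex : ∃ e ∈ A.E, e.1 = (π i).1 ∧ Win A A.protᶜ (π i).1 (run (fun j => (π j).2.1) i) ∧
            ∀ n, Att A A.protᶜ (n + 1) (π i).1 (run (fun j => (π j).2.1) i) →
              run (fun j => (π j).2.1) i ≠ none →
              Att A A.protᶜ n e.2.2 (step (run (fun j => (π j).2.1) i) e.2.1) := by
          have hw : Win A A.protᶜ (π i).1 (run (fun j => (π j).2.1) i) := ⟨_, hi⟩
          have hfs := Nat.find_spec hw
          have hfm := fun m => Nat.find_min (m := m) hw
          set N := Nat.find hw with hN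
          rcases hN0 : N with _ | N'
          · rw [hN0] at hfs; exact absurd hfs hne
          · rw [hN0] at hfs
            rcases hfs with h6 | ⟨_, e, he, hev, h7⟩ | ⟨h6, _⟩
            · exact absurd h6 hne
            · refine ⟨e, he, hev, hw, fun m hm _ => ?_⟩
              have hge : N ≤ m + 1 := by
                by_contra hlt
                exact hfm (m + 1) (by omega) hm
              exact att_mono A _ (by omega) h7
            · exact absurd hp h6
        have heq := h3 i hp
        have hc : ch (π i).1 (run (fun j => (π j).2.1) i) = hex.choose := by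
          simp only [ch, dif_pos hex]
        rw [hc] at heq
        have := hex.choose_spec.2.2.2 n hi hne
        rw [← heq] at this
        exact this
  obtain ⟨n, hn⟩ := h
  exact key n 0 (by rw [h1.1]; exact hn)

/-- If the reachability player (here Protagonist) cannot force death, no strategy wins `Wᶜ`. -/
theorem safe_beats (A : Arena (Fin 4)) (S : Strategy A) (u : A.V)
    (h : ¬ Win A A.prot u (some (0, 0))) : ¬ S.WinsFrom Wᶜ u := by
  classical
  intro hS
  let ch : A.V → Q → A.Edge := fun v q =>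
    if h : ∃ e ∈ A.E, e.1 = v ∧ ¬ Win A A.prot e.2.2 (step q e.2.1)
    then h.choose else (A.total v).choose
  have hch : ∀ v q, ch v q ∈ A.E ∧ (ch v q).1 = v := by
    intro v q
    by_cases h : ∃ e ∈ A.E, e.1 = v ∧ ¬ Win A A.prot e.2.2 (step q e.2.1)
    · simp only [ch, dif_pos h]; exact ⟨h.choose_spec.1, h.choose_spec.2.1⟩
    · simp only [ch, dif_neg h]; exact (A.total v).choose_spec
  obtain ⟨π, h1, h2, h3⟩ := exists_play A S u ch hch
  have hW := hS π h1 h2
  apply hW
  have key : ∀ i, ¬ Win A A.prot (π i).1 (run (fun j => (π j).2.1) i) := by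
    intro i
    induction i with
    | zero => rw [h1.1]; exact h
    | succ i ih =>
      rw [(h1.2 i).2]
      show ¬ Win A A.prot _ (step (run (fun j => (π j).2.1) i) (π i).2.1)
      by_cases hp : (π i).1 ∈ A.prot
      · exact not_win_R A _ hp ih (h1.2 i).1 rfl
      · have hex := not_win_P A _ hp ih
        have heq := h3 i hp
        have hc : ch (π i).1 (run (fun j => (π j).2.1) i) = hex.choose := by
          simp only [ch, dif_pos hex]
        rw [hc] at heq
        have := hex.choose_spec.2.2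
        rw [← heq] at this
        exact this
  intro i
  exact not_win_ne A _ (key i)


section safety
open Classical

/-- least pretend state on side `j` from which the safety player wins at `v` -/
noncomputable def pt (A : Arena (Fin 4)) (R : Set A.V) (v : A.V) (j : Fin 2) : Q :=
  if h : ∃ n, ¬ Win A R v (some (n, j)) then some (Nat.find h, j) else none

noncomputable def sig1 (A : Arena (Fin 4)) (v : A.V) (j : Fin 2) : A.Edge :=
  if h : ∃ e ∈ A.E, e.1 = v ∧ ¬ Win A A.protᶜ e.2.2 (step (pt A A.protᶜ v j) e.2.1) then h.choose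
  else (A.total v).choose

theorem sig1_legal (A : Arena (Fin 4)) (v : A.V) (j : Fin 2) :
    sig1 A v j ∈ A.E ∧ (sig1 A v j).1 = v := by
  by_cases h : ∃ e ∈ A.E, e.1 = v ∧ ¬ Win A A.protᶜ e.2.2 (step (pt A A.protᶜ v j) e.2.1)
  · simp only [sig1, dif_pos h]; exact ⟨h.choose_spec.1, h.choose_spec.2.1⟩
  · simp only [sig1, dif_neg h]; exact (A.total v).choose_spec

noncomputable def upd1 (A : Arena (Fin 4)) (j : Fin 2) (e : A.Edge) : Fin 2 :=
  match step (pt A A.protᶜ e.1 j) e.2.1 with
  | some (_, j') => j'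
  | none => 0

noncomputable def mem1 (A : Arena (Fin 4)) : Memory A 2 := ⟨0, upd1 A⟩

noncomputable def strat1 (A : Arena (Fin 4)) : Strategy A where
  move u p := sig1 A (A.last u p) (p.foldl (mem1 A).upd (mem1 A).init)
  legal _ _ _ _ := sig1_legal A _ _

theorem pt_spec {A : Arena (Fin 4)} {R : Set A.V} {v : A.V} {n : ℕ} {j : Fin 2}
    (h : ¬ Win A R v (some (n, j))) :
    ¬ Win A R v (pt A R v j) ∧ le (pt A R v j) (some (n, j)) := by
  have hex : ∃ n, ¬ Win A R v (some (n, j)) := ⟨n, h⟩
  rw [pt, dif_pos hex]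
  refine ⟨Nat.find_spec hex, ?_⟩
  have := Nat.find_min' hex h
  show Nat.find hex < n ∨ (Nat.find hex = n ∧ j = j)
  rcases this.lt_or_eq with h | h
  · exact Or.inl h
  · exact Or.inr ⟨h, rfl⟩

theorem strat1_opt (A : Arena (Fin 4)) : (strat1 A).Optimal W := by
  rintro u ⟨S', hS'⟩ π hπ hcon
  have hu : ¬ Win A A.protᶜ u (some (0, 0)) := fun h => att_beats A S' u h hS'
  let m : ℕ → Fin 2 := fun i => ((List.range i).map π).foldl (upd1 A) 0
  let q : ℕ → Q := run (fun j => (π j).2.1)
  have hm : ∀ i, m (i + 1) = upd1 A (m i) (π i) := by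
    intro i
    simp only [m, List.range_succ, List.map_append, List.foldl_append, List.map_cons, List.map_nil,
      List.foldl_cons, List.foldl_nil]
  have key : ∀ i, ¬ Win A A.protᶜ (π i).1 (pt A A.protᶜ (π i).1 (m i)) ∧
      le (pt A A.protᶜ (π i).1 (m i)) (q i) := by
    intro i
    induction i with
    | zero =>
      rw [hπ.1]
      exact pt_spec hu
    | succ i ih =>
      obtain ⟨ih1, ih2⟩ := ih
      have he : ¬ Win A A.protᶜ (π i).2.2 (step (pt A A.protᶜ (π i).1 (m i)) (π i).2.1) := by
        by_cases hp : (π i).1 ∈ A.prot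
        · have hex := not_win_P A A.protᶜ (v := (π i).1) (fun h => h hp) ih1
          have heq := hcon i hp
          have hl := (play_path A hπ i).2
          have h5 : (strat1 A).move u ((List.range i).map π) = sig1 A (π i).1 (m i) := by
            show sig1 A (A.last u (hist A π i)) _ = _
            rw [hl]
            rfl
          rw [h5, sig1, dif_pos hex] at heq
          have := hex.choose_spec.2.2
          rw [← heq] at this
          exact this
        · exact not_win_R A A.protᶜ hp ih1 (hπ.2 i).1 rfl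
      have hne := not_win_ne A _ he
      obtain ⟨⟨n', j'⟩, hq'⟩ := Option.ne_none_iff_exists'.mp hne
      have hmi : m (i + 1) = j' := by
        rw [hm i, upd1, hq']
      rw [hq'] at he
      have h6 := pt_spec he
      rw [(hπ.2 i).2, hmi]
      refine ⟨h6.1, le_trans' h6.2 ?_⟩
      rw [← hq']
      exact step_mono ih2 _
  intro i hi
  have h1 := (key i).2
  have h2 := not_win_ne A _ (key i).1
  change q i = none at hi
  rw [hi] at h1
  rcases hpt : pt A A.protᶜ (π i).1 (m i) with _ | x
  · exact h2 hpt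
  · rw [hpt] at h1; exact h1

theorem gen_le : genMem W ≤ 2 := by
  apply sInf_le
  refine ⟨2, rfl, by norm_num, fun A => ⟨strat1 A, mem1 A, strat1_opt A, ?_⟩⟩
  exact ⟨sig1 A, fun u p _ _ => rfl⟩

end safety


section reach
open Classical

variable (A : Arena (Fin 4))

def Vinf (v : A.V) : Prop := ∀ n j, Win A A.prot v (some (n, j))

theorem le_some_lt {n m : ℕ} {i j : Fin 2} (h : n < m) : le (some (n, i)) (some (m, j)) := Or.inl h

theorem exists_L : ∃ L : ℕ, ∀ v, ¬ Vinf A v → ∀ m, L ≤ m → ∀ j, ¬ Win A A.prot v (some (m, j)) := by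
  have h : ∀ v, ∃ n : ℕ, ¬ Vinf A v → ∀ m, n ≤ m → ∀ j, ¬ Win A A.prot v (some (m, j)) := by
    intro v
    by_cases hv : Vinf A v
    · exact ⟨0, fun h => absurd hv h⟩
    · have hv' := hv
      unfold Vinf at hv'
      push Not at hv'
      obtain ⟨n, j, hn⟩ := hv'
      refine ⟨n + 1, fun _ m hm j' hw => hn ?_⟩
      exact win_anti A _ (le_some_lt (by omega)) hw
  choose f hf using h
  have := A.finV
  obtain ⟨L, hL⟩ := (Set.finite_range f).bddAbove
  exact ⟨L, fun v hv m hm j => hf v hv m (le_trans (hL ⟨v, rfl⟩) hm) j⟩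

/-- the reachability player can lower the level by `a` within `t` steps and end in `Vinf` -/
def Reach : ℕ → A.V → ℕ → Prop
  | 0, v, a => a = 0 ∧ Vinf A v
  | t + 1, v, a => (a = 0 ∧ Vinf A v) ∨
      (a ≠ 0 ∧ v ∈ A.prot ∧ ∃ e ∈ A.E, e.1 = v ∧
        ∃ b : ℕ, (b : ℤ) = a + wt e.2.1 ∧ Reach t e.2.2 b) ∨
      (a ≠ 0 ∧ v ∉ A.prot ∧ ∀ e ∈ A.E, e.1 = v →
        ∃ b : ℕ, (b : ℤ) = a + wt e.2.1 ∧ Reach t e.2.2 b)

theorem reach_zero {t : ℕ} {v : A.V} : Reach A t v 0 ↔ Vinf A v := by
  cases t with
  | zero => simp [Reach]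
  | succ t => simp [Reach]

theorem reach_succ {t : ℕ} {v : A.V} {a : ℕ} (h : Reach A t v a) : Reach A (t + 1) v a := by
  induction t generalizing v a with
  | zero => exact Or.inl h
  | succ t ih =>
    rcases h with h | ⟨h0, h1, e, he, h2, b, h3, h4⟩ | ⟨h0, h1, h2⟩
    · exact Or.inl h
    · exact Or.inr (Or.inl ⟨h0, h1, e, he, h2, b, h3, ih h4⟩)
    · refine Or.inr (Or.inr ⟨h0, h1, fun e he h3 => ?_⟩)
      obtain ⟨b, h4, h5⟩ := h2 e he h3
      exact ⟨b, h4, ih h5⟩

theorem reach_mono {t s : ℕ} (hts : t ≤ s) {v : A.V} {a : ℕ} (h : Reach A t v a) :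
    Reach A s v a := by
  induction hts with
  | refl => exact h
  | step _ ih => exact reach_succ A ih

theorem reach_le {t : ℕ} {v : A.V} {a : ℕ} (h : Reach A t v a) : a ≤ t := by
  induction t generalizing v a with
  | zero => exact h.1.le
  | succ t ih =>
    rcases h with h | ⟨h0, h1, e, he, h2, b, h3, h4⟩ | ⟨h0, h1, h2⟩
    · omega
    · have := ih h4
      have := wt_ge e.2.1
      omega
    · obtain ⟨e, he, hev⟩ := A.total v
      obtain ⟨b, h3, h4⟩ := h2 e he hev
      have := ih h4
      have := wt_ge e.2.1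
      omega

theorem reach_of_att {L : ℕ}
    (hL : ∀ v, ¬ Vinf A v → ∀ m, L ≤ m → ∀ j, ¬ Win A A.prot v (some (m, j)))
    {n : ℕ} {v : A.V} {a : ℕ} {j : Fin 2} (ha : a ≠ 0) (h : Att A A.prot n v (some (L + a, j))) :
    Reach A n v a := by
  induction n generalizing v a j with
  | zero => exact absurd h (by simp [Att])
  | succ n ih =>
    have aux : ∀ e : A.Edge, Att A A.prot n e.2.2 (step (some (L + a, j)) e.2.1) →
        ∃ b : ℕ, (b : ℤ) = a + wt e.2.1 ∧ Reach A n e.2.2 b := by
      intro e he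
      obtain ⟨a', rfl⟩ : ∃ a', a = a' + 1 := ⟨a - 1, by omega⟩
      obtain ⟨m, j', hm⟩ := step_alive (L + a') j e.2.1
      have hm' : step (some (L + (a' + 1), j)) e.2.1 = some (m, j') := hm
      have hlev := step_lev hm'
      rw [hm'] at he
      have hge := wt_ge e.2.1
      obtain ⟨b, rfl⟩ : ∃ b, m = L + b := ⟨m - L, by push_cast at hlev; omega⟩
      refine ⟨b, by push_cast at hlev ⊢; omega, ?_⟩
      rcases Nat.eq_zero_or_pos b with hb | hb
      · subst hb
        rw [reach_zero]
        by_contra hv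
        exact hL _ hv L le_rfl j' ⟨n, by simpa using he⟩
      · exact ih (by omega) he
    rcases h with h | ⟨h1, e, he, h2, h3⟩ | ⟨h1, h2⟩
    · exact absurd h (by simp)
    · exact Or.inr (Or.inl ⟨ha, h1, e, he, h2, aux e h3⟩)
    · exact Or.inr (Or.inr ⟨ha, h1, fun e he h3 => aux e (h2 e he h3)⟩)

theorem exists_r : ∃ r : ℕ, ∀ v, Vinf A v → Reach A r v 1 := by
  obtain ⟨L, hL⟩ := exists_L A
  have h : ∀ v, ∃ n : ℕ, Vinf A v → Reach A n v 1 := by
    intro v
    by_cases hv : Vinf A v
    · obtain ⟨n, hn⟩ := hv (L + 1) 0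
      exact ⟨n, fun _ => reach_of_att A hL one_ne_zero hn⟩
    · exact ⟨0, fun h => absurd h hv⟩
  choose f hf using h
  have := A.finV
  obtain ⟨r, hr⟩ := (Set.finite_range f).bddAbove
  exact ⟨r, fun v hv => reach_mono A (hr ⟨v, rfl⟩) (hf v hv)⟩

noncomputable def rr : ℕ := (exists_r A).choose

theorem rr_spec {v : A.V} (hv : Vinf A v) : Reach A (rr A) v 1 := (exists_r A).choose_spec v hv

noncomputable def phiSet (v : A.V) : Finset (ℕ × ℕ) :=
  (Finset.range (rr A + 1) ×ˢ Finset.range (rr A + 1)).filter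
    (fun x => x.1 ≠ 0 ∧ Reach A x.2 v x.1)

noncomputable def phi (v : A.V) : ℕ :=
  (phiSet A v).sup (fun x => (rr A + 1) * x.1 + (rr A - x.2))

def Dm (v : A.V) : Prop := (phiSet A v).Nonempty

theorem phi_ge {v : A.V} {a t : ℕ} (ha : a ≠ 0) (ht : t ≤ rr A) (h : Reach A t v a) :
    Dm A v ∧ (rr A + 1) * a + (rr A - t) ≤ phi A v := by
  have hmem : (a, t) ∈ phiSet A v := by
    rw [phiSet, Finset.mem_filter, Finset.mem_product, Finset.mem_range, Finset.mem_range]
    have := reach_le A h
    exact ⟨⟨by simp only; omega, by simp only; omega⟩, ha, h⟩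
  exact ⟨⟨_, hmem⟩, Finset.le_sup (f := fun x => (rr A + 1) * x.1 + (rr A - x.2)) hmem⟩

theorem phi_att {v : A.V} (h : Dm A v) :
    ∃ a t, a ≠ 0 ∧ t ≤ rr A ∧ Reach A t v a ∧ phi A v = (rr A + 1) * a + (rr A - t) := by
  obtain ⟨⟨a, t⟩, hx, heq⟩ := Finset.exists_mem_eq_sup (phiSet A v) h
    (fun x => (rr A + 1) * x.1 + (rr A - x.2))
  rw [phiSet, Finset.mem_filter, Finset.mem_product, Finset.mem_range, Finset.mem_range] at hx
  exact ⟨a, t, hx.2.1, by have := hx.1.2; simp only at this; omega, hx.2.2, heq⟩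

theorem phi_le (v : A.V) : phi A v ≤ (rr A + 1) * rr A + rr A := by
  apply Finset.sup_le
  rintro ⟨a, t⟩ hx
  rw [phiSet, Finset.mem_filter, Finset.mem_product, Finset.mem_range, Finset.mem_range] at hx
  have h1 : a ≤ rr A := by have := hx.1.1; simp only at this; omega
  have h2 : (rr A + 1) * a ≤ (rr A + 1) * rr A := Nat.mul_le_mul_left _ h1
  simp only
  omega

theorem pot_edge {v : A.V} {a t : ℕ} (ha : a ≠ 0) (ht : t + 1 ≤ rr A)
    (hphi : phi A v = (rr A + 1) * a + (rr A - (t + 1))) {e : A.Edge} {b : ℕ}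
    (hb : (b : ℤ) = a + wt e.2.1) (h : Reach A t e.2.2 b) :
    Dm A e.2.2 ∧ (phi A v : ℤ) + (rr A + 1) * wt e.2.1 + 1 ≤ phi A e.2.2 := by
  have hge := wt_ge e.2.1
  rcases Nat.eq_zero_or_pos b with hb0 | hb0
  · subst hb0
    rw [reach_zero] at h
    have h1 := phi_ge A one_ne_zero le_rfl (rr_spec A h)
    refine ⟨h1.1, ?_⟩
    have hw : wt e.2.1 = -1 := by push_cast at hb; omega
    have ha1 : a = 1 := by push_cast at hb; omega
    subst ha1
    rw [hw, hphi]
    have h2 := h1.2
    push_cast
    have h3 : ((rr A - (t + 1) : ℕ) : ℤ) = rr A - (t + 1) := by push_cast [Nat.cast_sub ht]; ring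
    rw [h3]
    have h4 : (((rr A + 1) * 1 + (rr A - rr A) : ℕ) : ℤ) ≤ phi A e.2.2 := by exact_mod_cast h2
    simp at h4
    linarith
  · have h1 := phi_ge A (by omega) (by omega : t ≤ rr A) h
    refine ⟨h1.1, ?_⟩
    rw [hphi]
    have h2 : (((rr A + 1) * b + (rr A - t) : ℕ) : ℤ) ≤ phi A e.2.2 := by exact_mod_cast h1.2
    push_cast [Nat.cast_sub ht, Nat.cast_sub (by omega : t ≤ rr A)] at h2 ⊢
    rw [hb] at h2
    linarith

theorem pot_R {v : A.V} (hv : v ∈ A.prot) (h : Dm A v) :
    ∃ e ∈ A.E, e.1 = v ∧ Dm A e.2.2 ∧ (phi A v : ℤ) + (rr A + 1) * wt e.2.1 + 1 ≤ phi A e.2.2 := by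
  obtain ⟨a, t, ha, ht, hr, hphi⟩ := phi_att A h
  cases t with
  | zero => exact absurd hr.1 ha
  | succ t =>
    rcases hr with h | ⟨h0, h1, e, he, h2, b, h3, h4⟩ | ⟨h0, h1, h2⟩
    · exact absurd h.1 ha
    · exact ⟨e, he, h2, pot_edge A ha ht hphi h3 h4⟩
    · exact absurd hv h1

theorem pot_P {v : A.V} (hv : v ∉ A.prot) (h : Dm A v) {e : A.Edge} (he : e ∈ A.E)
    (hev : e.1 = v) :
    Dm A e.2.2 ∧ (phi A v : ℤ) + (rr A + 1) * wt e.2.1 + 1 ≤ phi A e.2.2 := by
  obtain ⟨a, t, ha, ht, hr, hphi⟩ := phi_att A h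
  cases t with
  | zero => exact absurd hr.1 ha
  | succ t =>
    rcases hr with h | ⟨h0, h1, e, he, h2, b, h3, h4⟩ | ⟨h0, h1, h2⟩
    · exact absurd h.1 ha
    · exact absurd h1 hv
    · obtain ⟨b, h3, h4⟩ := h2 e he hev
      exact pot_edge A ha ht hphi h3 h4

end reach


section reach2
open Classical

/-- largest pretend state on side `j` from which the reachability player wins at `v` -/
noncomputable def ptr (A : Arena (Fin 4)) (v : A.V) (j : Fin 2) : Q :=
  if h : ∃ n, ¬ Win A A.prot v (some (n, j)) then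
    (if Nat.find h = 0 then none else some (Nat.find h - 1, j)) else none

theorem ptr_win (A : Arena (Fin 4)) (v : A.V) (j : Fin 2) : Win A A.prot v (ptr A v j) := by
  by_cases h : ∃ n, ¬ Win A A.prot v (some (n, j))
  · rw [ptr, dif_pos h]
    by_cases h0 : Nat.find h = 0
    · rw [if_pos h0]; exact ⟨0, rfl⟩
    · rw [if_neg h0]
      by_contra hcon
      have := Nat.find_min' h hcon
      omega
  · rw [ptr, dif_neg h]; exact ⟨0, rfl⟩

theorem ptr_ge {A : Arena (Fin 4)} {v : A.V} (hv : ¬ Dm A v) {n : ℕ} {j : Fin 2}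
    (hw : Win A A.prot v (some (n, j))) : ∃ t, ptr A v j = some (t, j) ∧ n ≤ t := by
  have hinf : ¬ Vinf A v := fun h => hv (phi_ge A one_ne_zero le_rfl (rr_spec A h)).1
  have hex : ∃ n, ¬ Win A A.prot v (some (n, j)) := by
    unfold Vinf at hinf
    push Not at hinf
    obtain ⟨m, i, hm⟩ := hinf
    exact ⟨m + 1, fun h => hm (win_anti A _ (le_some_lt (by omega)) h)⟩
  have hlt : n < Nat.find hex := by
    by_contra hcon
    apply Nat.find_spec hex
    apply win_anti A _ _ hw
    rcases (not_lt.mp hcon).lt_or_eq with h | h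
    · exact Or.inl h
    · exact Or.inr ⟨h, rfl⟩
  refine ⟨Nat.find hex - 1, ?_, by omega⟩
  rw [ptr, dif_pos hex, if_neg (by omega)]

noncomputable def rk (A : Arena (Fin 4)) (v : A.V) (j : Fin 2) : ℕ := Nat.find (ptr_win A v j)

noncomputable def sig2 (A : Arena (Fin 4)) (v : A.V) (j : Fin 2) : A.Edge :=
  if h : v ∈ A.prot ∧ Dm A v then (pot_R A h.1 h.2).choose
  else if h : ∃ e ∈ A.E, e.1 = v ∧ Att A A.prot (rk A v j - 1) e.2.2 (step (ptr A v j) e.2.1)
    then h.choose
  else (A.total v).choose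

theorem sig2_legal (A : Arena (Fin 4)) (v : A.V) (j : Fin 2) :
    sig2 A v j ∈ A.E ∧ (sig2 A v j).1 = v := by
  by_cases h : v ∈ A.prot ∧ Dm A v
  · rw [sig2, dif_pos h]
    exact ⟨(pot_R A h.1 h.2).choose_spec.1, (pot_R A h.1 h.2).choose_spec.2.1⟩
  · rw [sig2, dif_neg h]
    by_cases h : ∃ e ∈ A.E, e.1 = v ∧ Att A A.prot (rk A v j - 1) e.2.2 (step (ptr A v j) e.2.1)
    · rw [dif_pos h]; exact ⟨h.choose_spec.1, h.choose_spec.2.1⟩
    · rw [dif_neg h]; exact (A.total v).choose_spec

noncomputable def upd2 (A : Arena (Fin 4)) (j : Fin 2) (e : A.Edge) : Fin 2 :=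
  match step (ptr A e.1 j) e.2.1 with
  | some (_, j') => j'
  | none => 0

noncomputable def mem2 (A : Arena (Fin 4)) : Memory A 2 := ⟨0, upd2 A⟩

noncomputable def strat2 (A : Arena (Fin 4)) : Strategy A where
  move u p := sig2 A (A.last u p) (p.foldl (mem2 A).upd (mem2 A).init)
  legal _ _ _ _ := sig2_legal A _ _

def lev : Q → ℕ
  | none => 0
  | some (n, _) => n

theorem lev_step {q : Q} {c : Fin 4} (h : step q c ≠ none) (hq : q ≠ none) :
    (lev (step q c) : ℤ) = lev q + wt c := by
  obtain ⟨⟨n, a⟩, rfl⟩ := Option.ne_none_iff_exists'.mp hq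
  obtain ⟨⟨m, b⟩, hm⟩ := Option.ne_none_iff_exists'.mp h
  rw [hm]
  exact step_lev hm

theorem bounds (A : Arena (Fin 4)) : ∃ H P : ℕ, ∀ v j, lev (ptr A v j) ≤ H ∧ rk A v j ≤ P := by
  have := A.finV
  obtain ⟨H, hH⟩ := (Set.finite_range (fun x : A.V × Fin 2 => lev (ptr A x.1 x.2))).bddAbove
  obtain ⟨P, hP⟩ := (Set.finite_range (fun x : A.V × Fin 2 => rk A x.1 x.2)).bddAbove
  exact ⟨H, P, fun v j => ⟨hH ⟨(v, j), rfl⟩, hP ⟨(v, j), rfl⟩⟩⟩

theorem strat2_opt (A : Arena (Fin 4)) : (strat2 A).Optimal Wᶜ := by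
  rintro u ⟨S', hS'⟩ π hπ hcon hW
  have hu : Win A A.prot u (some (0, 0)) := by
    by_contra h
    exact safe_beats A S' u h hS'
  let m : ℕ → Fin 2 := fun i => ((List.range i).map π).foldl (upd2 A) 0
  let q : ℕ → Q := run (fun j => (π j).2.1)
  have hq : ∀ i, q i ≠ none := hW
  have hqs : ∀ i, q (i + 1) = step (q i) (π i).2.1 := fun i => rfl
  have hm : ∀ i, m (i + 1) = upd2 A (m i) (π i) := by
    intro i
    simp only [m, List.range_succ, List.map_append, List.foldl_append, List.map_cons, List.map_nil,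
      List.foldl_cons, List.foldl_nil]
  have hmove : ∀ i, (π i).1 ∈ A.prot → π i = sig2 A (π i).1 (m i) := by
    intro i hp
    have heq := hcon i hp
    have hl := (play_path A hπ i).2
    have h5 : (strat2 A).move u ((List.range i).map π) = sig2 A (π i).1 (m i) := by
      show sig2 A (A.last u (hist A π i)) _ = _
      rw [hl]
      rfl
    rw [h5] at heq
    exact heq
  have hlev : ∀ i, (lev (q (i + 1)) : ℤ) = lev (q i) + wt (π i).2.1 := by
    intro i
    rw [hqs i]
    exact lev_step (by rw [← hqs i]; exact hq (i + 1)) (hq i)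
  -- potential phase
  have phaseA : ∀ i0, ¬ Dm A (π i0).1 := by
    intro i0 h0
    have key : ∀ k, Dm A (π (i0 + k)).1 ∧
        (phi A (π i0).1 : ℤ) + (rr A + 1) * ((lev (q (i0 + k)) : ℤ) - lev (q i0)) + k ≤
          phi A (π (i0 + k)).1 := by
      intro k
      induction k with
      | zero => exact ⟨h0, by simp⟩
      | succ k ih =>
        obtain ⟨ih1, ih2⟩ := ih
        have hstep : Dm A (π (i0 + k)).2.2 ∧
            (phi A (π (i0 + k)).1 : ℤ) + (rr A + 1) * wt (π (i0 + k)).2.1 + 1 ≤
              phi A (π (i0 + k)).2.2 := by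
          by_cases hp : (π (i0 + k)).1 ∈ A.prot
          · have heq := hmove (i0 + k) hp
            have hx : (π (i0 + k)).1 ∈ A.prot ∧ Dm A (π (i0 + k)).1 := ⟨hp, ih1⟩
            rw [sig2, dif_pos hx] at heq
            have := (pot_R A hx.1 hx.2).choose_spec.2.2
            rw [← heq] at this
            exact this
          · exact pot_P A hp ih1 (hπ.2 _).1 rfl
        have hnext : (π (i0 + (k + 1))).1 = (π (i0 + k)).2.2 := (hπ.2 (i0 + k)).2
        rw [hnext]
        refine ⟨hstep.1, ?_⟩
        have h2 := hstep.2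
        have h3 := hlev (i0 + k)
        have h4 : (lev (q (i0 + (k + 1))) : ℤ) = lev (q (i0 + k)) + wt (π (i0 + k)).2.1 := h3
        rw [h4]
        push_cast
        linarith
    have hb := (key ((rr A + 1) * rr A + rr A + (rr A + 1) * lev (q i0) + 1)).2
    have hb2 := phi_le A (π (i0 + ((rr A + 1) * rr A + rr A + (rr A + 1) * lev (q i0) + 1))).1
    have hb3 : (phi A (π (i0 + ((rr A + 1) * rr A + rr A + (rr A + 1) * lev (q i0) + 1))).1 : ℤ) ≤
      (rr A + 1) * rr A + rr A := by exact_mod_cast hb2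
    have hb4 : (0 : ℤ) ≤ (rr A + 1) *
        (lev (q (i0 + ((rr A + 1) * rr A + rr A + (rr A + 1) * lev (q i0) + 1))) : ℤ) := by
      positivity
    have hb5 : (0 : ℤ) ≤ phi A (π i0).1 := by positivity
    push_cast at hb
    linarith
  -- threshold phase
  obtain ⟨H, P, hHP⟩ := bounds A
  have inv : ∀ i, le (q i) (ptr A (π i).1 (m i)) := by
    intro i
    induction i with
    | zero =>
      have hd := phaseA 0
      rw [hπ.1] at hd ⊢
      obtain ⟨t, h1, h2⟩ := ptr_ge hd hu
      show le (some (0, 0)) (ptr A u 0)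
      rw [h1]
      rcases Nat.eq_zero_or_pos t with h | h
      · exact Or.inr ⟨h.symm, rfl⟩
      · exact Or.inl h
    | succ i ih =>
      have hmono := step_mono ih (π i).2.1
      rw [← hqs i] at hmono
      obtain ⟨⟨n1, a1⟩, hn1⟩ := Option.ne_none_iff_exists'.mp (hq (i + 1))
      rcases hst : step (ptr A (π i).1 (m i)) (π i).2.1 with _ | ⟨n', j'⟩
      · rw [hst, hn1] at hmono; exact hmono.elim
      · have hmi : m (i + 1) = j' := by rw [hm i, upd2, hst]
        have hwin : Win A A.prot (π i).2.2 (some (n', j')) := by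
          have hw := ptr_win A (π i).1 (m i)
          rw [← hst]
          have hfs : Att A A.prot (rk A (π i).1 (m i)) (π i).1 (ptr A (π i).1 (m i)) :=
            Nat.find_spec hw
          have hne : ptr A (π i).1 (m i) ≠ none := by
            intro h; rw [h, step_none] at hst; cases hst
          rcases hrk : rk A (π i).1 (m i) with _ | N
          · rw [hrk] at hfs; exact absurd hfs hne
          · rw [hrk] at hfs
            rcases hfs with h | ⟨h1, h2⟩ | ⟨h1, h2⟩
            · exact absurd h hne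
            · have heq := hmove i h1
              have hnx : ¬ ((π i).1 ∈ A.prot ∧ Dm A (π i).1) := fun h => phaseA i h.2
              have hex : ∃ e ∈ A.E, e.1 = (π i).1 ∧
                  Att A A.prot (rk A (π i).1 (m i) - 1) e.2.2
                    (step (ptr A (π i).1 (m i)) e.2.1) := by
                rw [hrk]; exact h2
              rw [sig2, dif_neg hnx, dif_pos hex] at heq
              have := hex.choose_spec.2.2
              rw [← heq] at this
              exact ⟨_, this⟩
            · exact ⟨_, h2 _ (hπ.2 i).1 rfl⟩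
        have hd := phaseA (i + 1)
        rw [(hπ.2 i).2] at hd ⊢
        obtain ⟨t, h1, h2⟩ := ptr_ge hd hwin
        rw [hmi, h1]
        rw [hst] at hmono
        refine le_trans' hmono ?_
        rcases h2.lt_or_eq with h | h
        · exact Or.inl h
        · exact Or.inr ⟨h, rfl⟩
  let μ : ℕ → ℕ := fun i =>
    (H + lev (q i) - lev (ptr A (π i).1 (m i))) * (P + 1) + rk A (π i).1 (m i)
  have hdec : ∀ i, μ (i + 1) < μ i := by
    intro i
    have hmono := step_mono (inv i) (π i).2.1
    rw [← hqs i] at hmono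
    obtain ⟨⟨n1, a1⟩, hn1⟩ := Option.ne_none_iff_exists'.mp (hq (i + 1))
    rcases hst : step (ptr A (π i).1 (m i)) (π i).2.1 with _ | ⟨n', j'⟩
    · rw [hst, hn1] at hmono; exact hmono.elim
    have hmi : m (i + 1) = j' := by rw [hm i, upd2, hst]
    have hne : ptr A (π i).1 (m i) ≠ none := by
      intro h; rw [h, step_none] at hst; cases hst
    have hattn : ∃ N, rk A (π i).1 (m i) = N + 1 ∧ Att A A.prot N (π i).2.2 (some (n', j')) := by
      have hw := ptr_win A (π i).1 (m i)
      rw [← hst]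
      have hfs : Att A A.prot (rk A (π i).1 (m i)) (π i).1 (ptr A (π i).1 (m i)) :=
        Nat.find_spec hw
      rcases hrk : rk A (π i).1 (m i) with _ | N
      · rw [hrk] at hfs; exact absurd hfs hne
      · rw [hrk] at hfs
        refine ⟨N, rfl, ?_⟩
        rcases hfs with h | ⟨h1, h2⟩ | ⟨h1, h2⟩
        · exact absurd h hne
        · have heq := hmove i h1
          have hnx : ¬ ((π i).1 ∈ A.prot ∧ Dm A (π i).1) := fun h => phaseA i h.2
          have hex : ∃ e ∈ A.E, e.1 = (π i).1 ∧
              Att A A.prot (rk A (π i).1 (m i) - 1) e.2.2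
                (step (ptr A (π i).1 (m i)) e.2.1) := by
            rw [hrk]; exact h2
          rw [sig2, dif_neg hnx, dif_pos hex] at heq
          have := hex.choose_spec.2.2
          rw [← heq, hrk] at this
          exact this
        · exact h2 _ (hπ.2 i).1 rfl
    obtain ⟨N, hN, hatt⟩ := hattn
    have hd := phaseA (i + 1)
    rw [(hπ.2 i).2] at hd
    obtain ⟨t, h1, h2⟩ := ptr_ge hd ⟨N, hatt⟩
    have hv : (π (i + 1)).1 = (π i).2.2 := (hπ.2 i).2
    have hlevp : (lev (step (ptr A (π i).1 (m i)) (π i).2.1) : ℤ) =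
        lev (ptr A (π i).1 (m i)) + wt (π i).2.1 :=
      lev_step (by rw [hst]; simp) hne
    rw [hst] at hlevp
    have hlevp' : (n' : ℤ) = lev (ptr A (π i).1 (m i)) + wt (π i).2.1 := hlevp
    have hlq := hlev i
    have hb1 := hHP (π i).1 (m i)
    have hb2 := hHP (π i).2.2 j'
    show (H + lev (q (i + 1)) - lev (ptr A (π (i + 1)).1 (m (i + 1)))) * (P + 1) +
      rk A (π (i + 1)).1 (m (i + 1)) < _
    rw [hv, hmi, h1]
    rw [h1] at hb2
    have hlt : lev (some (t, j') : Q) = t := rfl
    rw [hlt] at hb2 ⊢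
    show (H + lev (q (i + 1)) - t) * (P + 1) + rk A (π i).2.2 j' <
      (H + lev (q i) - lev (ptr A (π i).1 (m i))) * (P + 1) + rk A (π i).1 (m i)
    rcases h2.lt_or_eq with h | h
    · have h5 : H + lev (q (i + 1)) - t + 1 ≤ H + lev (q i) - lev (ptr A (π i).1 (m i)) := by
        omega
      have h6 := Nat.mul_le_mul_right (P + 1) h5
      have h7 := hb2.2
      rw [Nat.add_mul, one_mul] at h6
      omega
    · subst h
      have h5 : H + lev (q (i + 1)) - n' = H + lev (q i) - lev (ptr A (π i).1 (m i)) := by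
        omega
      rw [h5]
      have h8 : rk A (π i).2.2 j' ≤ N := by
        apply Nat.find_min'
        rw [h1]
        exact hatt
      omega
  have hfin : ∀ i, μ i + i ≤ μ 0 := by
    intro i
    induction i with
    | zero => simp
    | succ i ih => have := hdec i; omega
  have := hfin (μ 0 + 1)
  omega

theorem gen_compl_le : genMem Wᶜ ≤ 2 := by
  apply sInf_le
  refine ⟨2, rfl, by norm_num, fun A => ⟨strat2 A, mem2 A, strat2_opt A, ?_⟩⟩
  exact ⟨sig2 A, fun u p _ _ => rfl⟩

end reach2


section chrom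
open Classical

abbrev LV (L : ℕ) : Type := {l : List (Fin 4) // l.length ≤ L} ⊕ Bool

def LE (L : ℕ) : Set (LV L × Fin 4 × LV L) := fun e =>
  (∃ (c : Fin 4) (l : List (Fin 4)) (h : (c :: l).length ≤ L) (h' : l.length ≤ L),
    e = (Sum.inl ⟨c :: l, h⟩, c, Sum.inl ⟨l, h'⟩)) ∨
  e = (Sum.inl ⟨[], Nat.zero_le _⟩, 3, Sum.inr true) ∨
  e = (Sum.inl ⟨[], Nat.zero_le _⟩, 2, Sum.inr false) ∨
  e = (Sum.inr false, 3, Sum.inr true) ∨
  e = (Sum.inr true, 0, Sum.inr true)

theorem LV_fin (L : ℕ) : Finite (LV L) := by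
  have : Finite {l : List (Fin 4) // l.length ≤ L} := (List.finite_length_le (Fin 4) L).to_subtype
  infer_instance

def nxt {L : ℕ} (b : Bool) : LV L → LV L × Fin 4 × LV L
  | Sum.inl ⟨c :: l, h⟩ => (Sum.inl ⟨c :: l, h⟩, c,
      Sum.inl ⟨l, le_trans (Nat.le_succ _) h⟩)
  | Sum.inl ⟨[], _⟩ => if b then (Sum.inl ⟨[], Nat.zero_le _⟩, 2, Sum.inr false)
      else (Sum.inl ⟨[], Nat.zero_le _⟩, 3, Sum.inr true)
  | Sum.inr false => (Sum.inr false, 3, Sum.inr true)
  | Sum.inr true => (Sum.inr true, 0, Sum.inr true)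

theorem nxt_legal {L : ℕ} (b : Bool) (v : LV L) : nxt b v ∈ LE L ∧ (nxt b v).1 = v := by
  rcases v with ⟨l, h⟩ | v
  · rcases l with _ | ⟨c, l⟩
    · cases b
      · exact ⟨Or.inr (Or.inl rfl), rfl⟩
      · exact ⟨Or.inr (Or.inr (Or.inl rfl)), rfl⟩
    · exact ⟨Or.inl ⟨c, l, h, _, rfl⟩, rfl⟩
  · cases v
    · exact ⟨Or.inr (Or.inr (Or.inr (Or.inl rfl))), rfl⟩
    · exact ⟨Or.inr (Or.inr (Or.inr (Or.inr rfl))), rfl⟩

def lineArena (L : ℕ) : Arena (Fin 4) where
  V := LV L
  finV := LV_fin L
  nonemptyV := ⟨Sum.inr true⟩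
  prot := Set.univ
  E := LE L
  finE := by
    have := LV_fin L
    exact Set.toFinite _
  total v := ⟨nxt true v, nxt_legal true v⟩

def posS (L : ℕ) (b : Bool) : Strategy (lineArena L) where
  move u p := nxt b ((lineArena L).last u p)
  legal _ _ _ _ := nxt_legal b _

theorem edge_cons {L : ℕ} {e : LV L × Fin 4 × LV L} (he : e ∈ LE L) {c : Fin 4}
    {l : List (Fin 4)} {h : (c :: l).length ≤ L} (hs : e.1 = Sum.inl ⟨c :: l, h⟩) :
    e.2.1 = c ∧ e.2.2 = Sum.inl ⟨l, le_trans (Nat.le_succ _) h⟩ := by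
  rcases he with ⟨c', l', h1, h2, rfl⟩ | rfl | rfl | rfl | rfl
  · simp only [Sum.inl.injEq, Subtype.mk.injEq, List.cons.injEq] at hs
    obtain ⟨rfl, rfl⟩ := hs
    exact ⟨rfl, rfl⟩
  · simp at hs
  · simp at hs
  · simp at hs
  · simp at hs

theorem edge_nil {L : ℕ} {e : LV L × Fin 4 × LV L} (he : e ∈ LE L)
    (hs : e.1 = Sum.inl ⟨[], Nat.zero_le _⟩) :
    e = (Sum.inl ⟨[], Nat.zero_le _⟩, 3, Sum.inr true) ∨
      e = (Sum.inl ⟨[], Nat.zero_le _⟩, 2, Sum.inr false) := by
  rcases he with ⟨c', l', h1, h2, rfl⟩ | rfl | rfl | rfl | rfl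
  · simp at hs
  · exact Or.inl rfl
  · exact Or.inr rfl
  · simp at hs
  · simp at hs

theorem edge_false {L : ℕ} {e : LV L × Fin 4 × LV L} (he : e ∈ LE L)
    (hs : e.1 = Sum.inr false) : e = (Sum.inr false, 3, Sum.inr true) := by
  rcases he with ⟨c', l', h1, h2, rfl⟩ | rfl | rfl | rfl | rfl
  · simp at hs
  · simp at hs
  · simp at hs
  · rfl
  · simp at hs

theorem edge_true {L : ℕ} {e : LV L × Fin 4 × LV L} (he : e ∈ LE L)
    (hs : e.1 = Sum.inr true) : e = (Sum.inr true, 0, Sum.inr true) := by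
  rcases he with ⟨c', l', h1, h2, rfl⟩ | rfl | rfl | rfl | rfl
  · simp at hs
  · simp at hs
  · simp at hs
  · simp at hs
  · rfl

/-- the first part of a play in the line arena -/
theorem line_play {L : ℕ} {w : List (Fin 4)} (hw : w.length ≤ L)
    {π : ℕ → (lineArena L).Edge} (hπ : (lineArena L).IsPlay (Sum.inl ⟨w, hw⟩) π) :
    (∀ i, i ≤ w.length → (π i).1 = (Sum.inl ⟨w.drop i, by simp; omega⟩ : LV L)) ∧
    (∀ i, i ≤ w.length → (List.range i).map (fun j => (π j).2.1) = w.take i) := by
  have h1 : ∀ i, i ≤ w.length → (π i).1 = (Sum.inl ⟨w.drop i, by simp; omega⟩ : LV L) := by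
    intro i
    induction i with
    | zero => intro _; rw [hπ.1]; rfl
    | succ i ih =>
      intro hi
      have h2 := ih (by omega)
      have h3 : w.drop i = w[i] :: w.drop (i + 1) := by
        rw [List.drop_eq_getElem_cons]
      have h4 : (π i).1 = (Sum.inl ⟨w[i] :: w.drop (i + 1), by
          rw [← h3]; simp; omega⟩ : LV L) := by
        rw [h2]; congr 2
      rw [(hπ.2 i).2]
      exact (edge_cons (hπ.2 i).1 h4).2
  refine ⟨h1, ?_⟩
  intro i
  induction i with
  | zero => intro _; rfl
  | succ i ih =>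
    intro hi
    rw [List.range_succ, List.map_append, ih (by omega), List.take_succ_eq_append_getElem (by omega)]
    congr 1
    have h3 : w.drop i = w[i] :: w.drop (i + 1) := by
      rw [List.drop_eq_getElem_cons]
    have h4 : (π i).1 = (Sum.inl ⟨w[i] :: w.drop (i + 1), by
        rw [← h3]; simp; omega⟩ : LV L) := by
      rw [h1 i (by omega)]; congr 2
    simp only [List.map_cons, List.map_nil]
    rw [(edge_cons (hπ.2 i).1 h4).1]

theorem run_eq_foldl (w : ℕ → Fin 4) (i : ℕ) :
    run w i = ((List.range i).map w).foldl step (some (0, 0)) := by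
  induction i with
  | zero => rfl
  | succ i ih =>
    rw [List.range_succ, List.map_append, List.foldl_append, ← ih]
    rfl

theorem run_none_mono {w : ℕ → Fin 4} {i j : ℕ} (hij : i ≤ j) (h : run w i = none) :
    run w j = none := by
  induction hij with
  | refl => exact h
  | step _ ih =>
    show step _ _ = none
    rw [ih, step_none]

theorem foldl_up (n m : ℕ) (a : Fin 2) :
    (List.replicate m (0 : Fin 4)).foldl step (some (n, a)) = some (n + m, a) := by
  induction m generalizing n with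
  | zero => rfl
  | succ m ih =>
    rw [List.replicate_succ, List.foldl_cons]
    show (List.replicate m (0 : Fin 4)).foldl step (some (n + 1, a)) = _
    rw [ih]
    congr 2
    omega

theorem foldl_down (n m : ℕ) (a : Fin 2) :
    (List.replicate m (1 : Fin 4)).foldl step (some (n + m, a)) = some (n, a) := by
  induction m with
  | zero => rfl
  | succ m ih =>
    rw [List.replicate_succ, List.foldl_cons]
    show (List.replicate m (1 : Fin 4)).foldl step (some (n + m, a)) = _
    exact ih

def word (j i : ℕ) : List (Fin 4) :=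
  List.replicate j 0 ++ (List.replicate i 1 ++ ([2] ++ (List.replicate i 0 ++ List.replicate j 1)))

theorem word_length (j i : ℕ) : (word j i).length = 2 * j + 2 * i + 1 := by
  simp [word]; omega

theorem word_self (j : ℕ) : (word j j).foldl step (some (0, 0)) = some (0, 1) := by
  rw [word, List.foldl_append, foldl_up, List.foldl_append, foldl_down, List.foldl_append]
  show (List.replicate j (0 : Fin 4) ++ List.replicate j (1 : Fin 4)).foldl step (some (0, 1)) = _
  rw [List.foldl_append, foldl_up, foldl_down]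

theorem word_lt {i j : ℕ} (hij : i < j) : (word j i).foldl step (some (0, 0)) = some (0, 0) := by
  obtain ⟨d, rfl⟩ : ∃ d, j = (d + 1) + i := ⟨j - i - 1, by omega⟩
  rw [word, List.foldl_append, foldl_up, List.foldl_append]
  rw [show 0 + (d + 1 + i) = (d + 1) + i by omega, foldl_down, List.foldl_append]
  show (List.replicate i (0 : Fin 4) ++ List.replicate (d + 1 + i) (1 : Fin 4)).foldl step
    (some (d + 1, 0)) = _
  rw [List.foldl_append, foldl_up]
  have := foldl_down 0 (d + 1 + i) 0
  rw [Nat.zero_add] at this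
  exact this

theorem foldl_replicate {k : ℕ} (g : Fin k → Fin 4 → Fin k) (n : ℕ) (c : Fin 4) (m : Fin k) :
    (List.replicate n c).foldl g m = (fun x => g x c)^[n] m := by
  induction n generalizing m with
  | zero => rfl
  | succ n ih => rw [List.replicate_succ, List.foldl_cons, ih, Function.iterate_succ_apply]

theorem word_mem {k : ℕ} (g : Fin k → Fin 4 → Fin k) {i j : ℕ}
    (hij : ∀ f : Fin k → Fin k, f^[i] = f^[j]) (m : Fin k) :
    (word j i).foldl g m = (word j j).foldl g m := by
  simp only [word, List.foldl_append, foldl_replicate, hij]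

theorem exists_ij (k : ℕ) : ∃ i j : ℕ, i < j ∧ ∀ f : Fin k → Fin k, f^[i] = f^[j] := by
  obtain ⟨i, j, hne, h⟩ := Finite.exists_ne_map_eq_of_infinite
    (fun i : ℕ => fun f : Fin k → Fin k => f^[i])
  rcases lt_or_gt_of_ne hne with hlt | hlt
  · exact ⟨i, j, hlt, fun f => congrFun h f⟩
  · exact ⟨j, i, hlt, fun f => (congrFun h f).symm⟩

theorem posS_wins {L : ℕ} (b : Bool) {w : List (Fin 4)} (hw : w.length ≤ L)
    (hb : w.foldl step (some (0, 0)) = some (0, if b then 1 else 0)) :
    (posS L b).WinsFrom W (Sum.inl ⟨w, hw⟩) := by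
  intro π hπ hcon
  obtain ⟨h1, h2⟩ := line_play hw hπ
  have hmove : ∀ i, π i = nxt b (π i).1 := by
    intro i
    have heq := hcon i (Set.mem_univ _)
    have hl := (play_path (lineArena L) hπ i).2
    have h5 : (posS L b).move (Sum.inl ⟨w, hw⟩) ((List.range i).map π) = nxt b (π i).1 := by
      show nxt b ((lineArena L).last _ (hist (lineArena L) π i)) = _
      rw [hl]
    rw [h5] at heq
    exact heq
  have hrun : run (fun i => (π i).2.1) w.length = some (0, if b then 1 else 0) := by
    rw [run_eq_foldl, h2 _ le_rfl, List.take_length, hb]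
  have hsrc : (π w.length).1 = (Sum.inl ⟨[], Nat.zero_le _⟩ : LV L) := by
    rw [h1 _ le_rfl]; congr 2; exact List.drop_length
  -- eventually at the sink with side 0
  have hsink : ∃ N, w.length ≤ N ∧ (π N).1 = (Sum.inr true : LV L) ∧
      run (fun i => (π i).2.1) N ≠ none := by
    cases b
    · refine ⟨w.length + 1, by omega, ?_, ?_⟩
      · rw [(hπ.2 _).2, hmove, hsrc]; rfl
      · show step (run _ w.length) (π w.length).2.1 ≠ none
        rw [hrun, hmove, hsrc]
        show (some (0, 0) : Q) ≠ none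
        simp
    · have hs1 : (π (w.length + 1)).1 = (Sum.inr false : LV L) := by
        rw [(hπ.2 _).2, hmove, hsrc]; rfl
      have hr1 : run (fun i => (π i).2.1) (w.length + 1) = some (0, 0) := by
        show step (run _ w.length) (π w.length).2.1 = _
        rw [hrun, hmove, hsrc]
        rfl
      refine ⟨w.length + 1 + 1, by omega, ?_, ?_⟩
      · rw [(hπ.2 _).2, hmove, hs1]; rfl
      · show step (run _ (w.length + 1)) (π (w.length + 1)).2.1 ≠ none
        rw [hr1, hmove, hs1]
        show (some (0, 0) : Q) ≠ none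
        simp
  obtain ⟨N, _, hN2, hN3⟩ := hsink
  have hafter : ∀ k, (π (N + k)).1 = (Sum.inr true : LV L) ∧
      run (fun i => (π i).2.1) (N + k) ≠ none := by
    intro k
    induction k with
    | zero => exact ⟨hN2, hN3⟩
    | succ k ih =>
      obtain ⟨ih1, ih2⟩ := ih
      constructor
      · show (π (N + k + 1)).1 = _
        rw [(hπ.2 _).2, hmove, ih1]; rfl
      · show step (run _ (N + k)) (π (N + k)).2.1 ≠ none
        obtain ⟨⟨n, a⟩, hn⟩ := Option.ne_none_iff_exists'.mp ih2
        rw [hn, hmove, ih1]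
        show (some (n + 1, a) : Q) ≠ none
        simp
  intro i hi
  rcases le_total i N with h | h
  · exact hN3 (run_none_mono h hi)
  · obtain ⟨k, rfl⟩ := Nat.exists_eq_add_of_le h
    exact (hafter k).2 hi

theorem no_chrom (k : ℕ) : ∃ A : Arena (Fin 4), ∀ (S : Strategy A) (M : Memory A k),
    M.IsChromatic → S.Optimal W → S.BuiltOn M → False := by
  obtain ⟨i, j, hij, hf⟩ := exists_ij k
  let L := 4 * j + 1
  have hw1 : (word j j).length ≤ L := by rw [word_length]; omega
  have hw2 : (word j i).length ≤ L := by rw [word_length]; omega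
  refine ⟨lineArena L, fun S M hM hS hB => ?_⟩
  obtain ⟨σ, hσ⟩ := hB
  have win1 : S.WinsFrom W (Sum.inl ⟨word j j, hw1⟩) :=
    hS _ ⟨posS L true, posS_wins true hw1 (by simpa using word_self j)⟩
  have win2 : S.WinsFrom W (Sum.inl ⟨word j i, hw2⟩) :=
    hS _ ⟨posS L false, posS_wins false hw2 (by simpa using word_lt hij)⟩
  -- chromatic update as a function of colours
  let g : Fin k → Fin 4 → Fin k := fun m c =>
    if h : ∃ e ∈ (lineArena L).E, e.2.1 = c then M.upd m h.choose else m
  have hg : ∀ m, ∀ e ∈ (lineArena L).E, M.upd m e = g m e.2.1 := by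
    intro m e he
    have hex : ∃ e' ∈ (lineArena L).E, e'.2.1 = e.2.1 := ⟨e, he, rfl⟩
    simp only [g, dif_pos hex]
    exact hM m e he _ hex.choose_spec.1 hex.choose_spec.2.symm
  have hgf : ∀ (p : List (lineArena L).Edge) (m : Fin k), (∀ e ∈ p, e ∈ (lineArena L).E) →
      p.foldl M.upd m = (p.map (fun e => e.2.1)).foldl g m := by
    intro p
    induction p with
    | nil => intro m _; rfl
    | cons e p ih =>
      intro m hp
      rw [List.foldl_cons, List.map_cons, List.foldl_cons, hg m e (hp e (by simp)),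
        ih _ (fun e' he' => hp e' (by simp [he']))]
  have aux : ∀ (w : List (Fin 4)) (hw : w.length ≤ L), ∃ π,
      (lineArena L).IsPlay (Sum.inl ⟨w, hw⟩) π ∧ S.Consistent (Sum.inl ⟨w, hw⟩) π ∧
      run (fun i => (π i).2.1) w.length = w.foldl step (some (0, 0)) ∧
      π w.length = σ (Sum.inl ⟨[], Nat.zero_le _⟩) (w.foldl g M.init) ∧
      (π w.length).1 = (Sum.inl ⟨[], Nat.zero_le _⟩ : LV L) := by
    intro w hw
    obtain ⟨π, h1, h2, _⟩ := exists_play (lineArena L) S (Sum.inl ⟨w, hw⟩)
      (fun v _ => nxt true v) (fun v _ => nxt_legal true v)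
    obtain ⟨h3, h4⟩ := line_play hw h1
    have hsrc : (π w.length).1 = (Sum.inl ⟨[], Nat.zero_le _⟩ : LV L) := by
      rw [h3 _ le_rfl]; congr 2; exact List.drop_length
    refine ⟨π, h1, h2, ?_, ?_, hsrc⟩
    · rw [run_eq_foldl, h4 _ le_rfl, List.take_length]
    · have h5 := h2 w.length (Set.mem_univ _)
      have h6 := play_path (lineArena L) h1 w.length
      have h7 := hσ (Sum.inl ⟨w, hw⟩) (hist (lineArena L) π w.length) h6.1 (Set.mem_univ _)
      change π w.length = S.move (Sum.inl ⟨w, hw⟩) (hist (lineArena L) π w.length) at h5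
      rw [h5, h7, h6.2, hsrc, hgf]
      · congr 2
        have h8 := h4 _ le_rfl
        rw [List.take_length] at h8
        conv_rhs => rw [← h8]
        simp [hist]
      · intro e he
        simp only [hist, List.mem_map] at he
        obtain ⟨a, _, rfl⟩ := he
        exact (h1.2 a).1
  obtain ⟨π1, a1, a2, a3, a4, a5⟩ := aux _ hw1
  obtain ⟨π2, b1, b2, b3, b4, b5⟩ := aux _ hw2
  rw [word_mem g hf] at b4
  have same : π1 (word j j).length = π2 (word j i).length := by rw [a4, b4]
  have c1 := win1 π1 a1 a2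
  have c2 := win2 π2 b1 b2
  rcases edge_nil (a1.2 _).1 a5 with h | h
  · -- choice x
    apply c1 ((word j j).length + 1)
    show step (run (fun i => (π1 i).2.1) (word j j).length) (π1 (word j j).length).2.1 = none
    rw [a3, h, word_self]
    rfl
  · -- choice F
    rw [same] at h
    apply c2 ((word j i).length + 1 + 1)
    have hs : (π2 ((word j i).length + 1)).1 = (Sum.inr false : LV L) := by
      rw [(b1.2 _).2, h]
    have he := edge_false (b1.2 _).1 hs
    show step (run (fun i => (π2 i).2.1) ((word j i).length + 1))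
      (π2 ((word j i).length + 1)).2.1 = none
    have hr : run (fun i => (π2 i).2.1) ((word j i).length + 1) = some (0, 1) := by
      show step (run (fun i => (π2 i).2.1) (word j i).length) (π2 (word j i).length).2.1 = _
      rw [b3, h, word_lt hij]
      rfl
    rw [hr, he]
    rfl

theorem chrom_top : chrMem W = ⊤ := by
  rw [chrMem, sInf_eq_top]
  rintro n ⟨k, rfl, _, hk⟩
  exfalso
  obtain ⟨A, hA⟩ := no_chrom k
  obtain ⟨S, M, h1, h2, h3⟩ := hk A
  exact hA S M h1 h2 h3

end chrom


theorem W_closed : IsClosed W := by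
  have h : W = ⋂ i : ℕ, {w : ℕ → Fin 4 | run w i ≠ none} := by
    ext w; simp [W]
  rw [h]
  refine isClosed_iInter fun i => ?_
  have h2 : {w : ℕ → Fin 4 | run w i ≠ none} =
      (fun (w : ℕ → Fin 4) (j : Fin i) => w j) ⁻¹'
        {v : Fin i → Fin 4 | (List.ofFn v).foldl step (some (0, 0)) ≠ none} := by
    ext w
    simp only [Set.mem_setOf_eq, Set.mem_preimage]
    rw [run_eq_foldl]
    have : List.ofFn (fun j : Fin i => w j) = (List.range i).map w := by
      apply List.ext_getElem
      · simp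
      · intro n h1 h2
        simp
    rw [this]
  rw [h2]
  refine IsClosed.preimage ?_ (isClosed_discrete _)
  exact continuous_pi fun j => continuous_apply (j : ℕ)

theorem main : ∃ W : Set (ℕ → Fin 4),
    IsClosed W ∧ genMem W ≤ 2 ∧ genMem Wᶜ ≤ 2 ∧ chrMem W = ⊤ :=
  ⟨W, W_closed, gen_le, gen_compl_le, chrom_top⟩

end Pool.Agent.Helper53.Mem
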